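import Pool.Agent.Helper14.BSC.Stmts

set_option autoImplicit false

namespace Pool.Agent.Helper14.BSC

/-- DEN: the residue field of `B` is that of `FF S₁`. -/
theorem st_DEN (hA0 : ST_A0) (hMIN : ST_MIN) : ST_DEN := by
  intro k Ω _ _ _ _ _ D p _ Lc B hO hN x hx
  have hp : p.Prime := Fact.out
  set π : NN D Lc.S₁ := piN D Lc with hπ
  have hπB : π ∈ B := (hO ⟨Lc.π, Lc.memπ⟩).2 Lc.ltπ.le
  have hι0 : Lc.ι Lc.π ≠ 0 := norm_pos_iff.1 Lc.posπ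
  have hπA0 : Lc.π ≠ 0 := by
    intro h; rw [h, map_zero] at hι0; exact hι0 rfl
  have hπ0 : π ≠ 0 := by
    intro h
    have h1 : (π : Ω) = 0 := by rw [h]; rfl
    exact hπA0 (Subtype.ext h1)
  have hπinv : π⁻¹ ∉ B := by
    have h1 : π⁻¹ = inc D Lc.S₁ (⟨Lc.π, Lc.memπ⟩⁻¹) := (map_inv₀ _ _).symm
    rw [h1, hO]
    show ¬ (‖Lc.ι (((⟨Lc.π, Lc.memπ⟩ : FF Lc.S₁)⁻¹ : FF Lc.S₁) : Acl k Ω)‖ ≤ 1)
    have h2 : (((⟨Lc.π, Lc.memπ⟩ : FF Lc.S₁)⁻¹ : FF Lc.S₁) : Acl k Ω) = Lc.π⁻¹ := rfl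
    rw [h2, map_inv₀, norm_inv, not_le]
    exact (one_lt_inv₀ Lc.posπ).2 Lc.ltπ
  have hvπ : B.valuation π < 1 := by
    rw [← not_le]
    intro h
    apply hπinv
    rw [← B.valuation_le_one_iff, map_inv₀]
    exact inv_le_one_of_one_le₀ h
  have hvx : B.valuation x ≤ 1 := (B.valuation_le_one_iff x).2 hx
  have hvy : B.valuation (π * x) < 1 := by
    rw [map_mul]
    calc B.valuation π * B.valuation x ≤ B.valuation π * 1 := mul_le_mul_right hvx _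
      _ = B.valuation π := mul_one _
      _ < 1 := hvπ
  obtain ⟨d, hd, -, h, hh, heq⟩ := hA0 k Ω D p Lc B hO hN (π * x) hvy
  have hdB : inc D Lc.S₁ d ∈ B := (hO d).2 hd.le
  have hh' : h / π ∈ B := hMIN k Ω D p Lc B hO hN h hh
  have hpv : nm Lc (((p : FF Lc.S₁)) : Acl k Ω) < 1 := by
    show ‖Lc.ι (((p : FF Lc.S₁)) : Acl k Ω)‖ < 1
    have h2 : (((p : FF Lc.S₁)) : Acl k Ω) = (p : Acl k Ω) := by norm_num
    rw [h2, map_natCast]
    have h3 : ‖(p : ℂ_[p])‖ = (p : ℝ)⁻¹ := by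
      have h4 := PadicComplex.norm_extends' p (p : ℚ_[p])
      rw [Padic.norm_p] at h4
      rw [← h4]
      exact congrArg norm (map_natCast (algebraMap ℚ_[p] ℂ_[p]) p).symm
    rw [h3]
    exact inv_lt_one_of_one_lt₀ (by exact_mod_cast hp.one_lt)
  have hpB : (p : NN D Lc.S₁) / π ∈ B := by
    apply hMIN k Ω D p Lc B hO hN
    have h1 : (p : NN D Lc.S₁) = inc D Lc.S₁ (p : FF Lc.S₁) := (map_natCast _ _).symm
    rw [← not_le]
    intro h4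
    have hp0 : (p : FF Lc.S₁) ≠ 0 := by exact_mod_cast hp.ne_zero
    have h5 : (inc D Lc.S₁ ((p : FF Lc.S₁)⁻¹)) ∈ B := by
      rw [map_inv₀, ← h1, ← B.valuation_le_one_iff, map_inv₀]
      exact inv_le_one_of_one_le₀ h4
    rw [hO] at h5
    have h6 : nm Lc (((p : FF Lc.S₁)⁻¹ : FF Lc.S₁) : Acl k Ω) =
      (nm Lc (((p : FF Lc.S₁)) : Acl k Ω))⁻¹ := by
      show ‖Lc.ι (((p : FF Lc.S₁)⁻¹ : FF Lc.S₁) : Acl k Ω)‖ = ‖Lc.ι (((p : FF Lc.S₁)) : Acl k Ω)‖⁻¹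
      have h2 : ((((p : FF Lc.S₁)⁻¹ : FF Lc.S₁)) : Acl k Ω) = (((p : FF Lc.S₁)) : Acl k Ω)⁻¹ := rfl
      rw [h2, map_inv₀, norm_inv]
    rw [h6] at h5
    have h7 : 0 < nm Lc (((p : FF Lc.S₁)) : Acl k Ω) := by
      refine norm_pos_iff.2 ?_
      intro h8
      apply hp0
      have h9 := (map_eq_zero Lc.ι).1 h8
      exact Subtype.ext h9
    exact absurd ((one_lt_inv₀ h7).2 hpv) (not_lt.2 h5)
  obtain ⟨r, hr⟩ : ∃ r ∈ B, (1 + h) ^ p = 1 + π ^ 2 * r := by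
    set H : B := ⟨h / π, hh'⟩ with hH
    set P : B := ⟨π, hπB⟩ with hP
    set Q : B := ⟨(p : NN D Lc.S₁) / π, hpB⟩ with hQ
    have hQp : (p : B) = P * Q := by
      apply Subtype.ext
      show (p : NN D Lc.S₁) = π * ((p : NN D Lc.S₁) / π)
      field_simp
    obtain ⟨u, hu⟩ := exists_add_pow_prime_eq hp (1 : B) (P * H)
    obtain ⟨m, hm⟩ : ∃ m, p = m + 2 := ⟨p - 2, by have := hp.two_le; omega⟩
    refine ⟨((P ^ m * H ^ p + Q * H * u : B) : NN D Lc.S₁), SetLike.coe_mem _, ?_⟩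
    have h1 : (1 + P * H) ^ p = 1 + P ^ 2 * (P ^ m * H ^ p + Q * H * u) := by
      rw [hu, hQp, one_pow]
      have : (P * H) ^ p = P ^ 2 * P ^ m * H ^ p := by
        rw [mul_pow, ← pow_add, add_comm 2 m, ← hm]
      rw [this]; ring
    have h2 : h = π * (h / π) := by field_simp
    have h3 := congrArg (fun x : B => (x : NN D Lc.S₁)) h1
    have h4 : (((1 + P * H) ^ p : B) : NN D Lc.S₁) = (1 + h) ^ p := by
      show (1 + π * (h / π)) ^ p = (1 + h) ^ p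
      rw [← h2]
    rw [← h4]
    exact h3
  obtain ⟨hrB, hr⟩ := hr
  refine ⟨d / ⟨Lc.π, Lc.memπ⟩, ?_⟩
  have hinc : inc D Lc.S₁ (d / ⟨Lc.π, Lc.memπ⟩) = inc D Lc.S₁ d / π := map_div₀ _ _ _
  rw [hinc]
  have hkey : (x - inc D Lc.S₁ d / π) / π = r * (1 + inc D Lc.S₁ d) := by
    rw [hr] at heq
    field_simp
    linear_combination heq
  rw [hkey]
  exact mul_mem hrB (add_mem (one_mem _) hdB)

end Pool.Agent.Helper14.BSC
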