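import Pool.Agent.Helper8.BSC.Dsc

set_option autoImplicit false

namespace Pool.Agent.Helper14.BSC

/-- DSC2: descent of norm equations from `NN D S` to `FF S`. -/
theorem st_DSC2 (hKUM : ST_KUM) (hROOT : ST_ROOT) : ST_DSC2 := by
  intro k Ω _ _ _ _ _ D S c d g h hc hd hh heq
  have : CharZero Ω := charZero_of_injective_algebraMap (algebraMap k Ω).injective
  obtain ⟨γ, τ, hγ, hγ0, hτγ, H⟩ := dsc_ex2 c hc
  have hγΩ : (γ : Ω) ^ 2 = ((c : Acl k Ω) : Ω) := by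
    rw [← hγ]; rfl
  have hγΩ0 : (γ : Ω) ≠ 0 := fun h => hγ0 (Subtype.ext h)
  have hσγ : D.s τ (γ : Ω) = - (γ : Ω) := by rw [D.ext, hτγ]; rfl
  have heq' : ((c : Acl k Ω) : Ω) * (g : Ω) ^ 2 + ((d : Acl k Ω) : Ω) * (h : Ω) ^ 2 = 1 :=
    congrArg (fun x : NN D S => (x : Ω)) heq
  have hσg : D.s τ (g : Ω) = g := g.2 τ H.mem
  have hdΩ : ((d : Acl k Ω) : Ω) ≠ 0 := fun h => hd (Subtype.ext (Subtype.ext h))
  have hhΩ : (h : Ω) ≠ 0 := fun h1 => hh (Subtype.ext h1)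
  have hgS : (g : Ω) ∈ NN D (S ∪ {γ}) := NN_le D (dsc_le_union S γ) g.2
  have hγN : (γ : Ω) ∈ NN D (S ∪ {γ}) := coe_mem_NN.2 (subset_FF _ (Or.inr rfl))
  set z : NN D (S ∪ {γ}) := ⟨1 - (γ : Ω) * (g : Ω), sub_mem (one_mem _) (mul_mem hγN hgS)⟩ with hz
  have hzv : (z : Ω) = 1 - (γ : Ω) * (g : Ω) := rfl
  have hσz : D.s τ (z : Ω) = 1 + (γ : Ω) * (g : Ω) := by
    rw [hzv, map_sub, map_one, map_mul, hσγ, hσg]; ring
  have hprod : (z : Ω) * D.s τ (z : Ω) = ((d : Acl k Ω) : Ω) * (h : Ω) ^ 2 := by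
    rw [hσz, hzv]
    linear_combination - heq' - (g : Ω) ^ 2 * hγΩ
  have hz0 : z ≠ 0 := by
    intro h1
    have h2 : (z : Ω) = 0 := by rw [h1]; rfl
    rw [h2, zero_mul] at hprod
    exact mul_ne_zero hdΩ (pow_ne_zero 2 hhΩ) hprod.symm
  obtain ⟨z0, hz00, t, ht0, hzt⟩ := hKUM k Ω D (S ∪ {γ}) 2 (by norm_num) z hz0
  have hztΩ : (z : Ω) = ((z0 : Acl k Ω) : Ω) * (t : Ω) ^ 2 :=
    congrArg (fun x : NN D (S ∪ {γ}) => (x : Ω)) hzt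
  -- norms
  have hper : ∀ y ∈ NN D (S ∪ {γ}), D.s τ (D.s τ y) = y := by
    intro y hy
    have := dsc_period D H hy
    rw [pow_two, map_mul, AlgEquiv.mul_apply] at this
    exact this
  set Z : Ω := ((z0 : Acl k Ω) : Ω) with hZ
  have hZN : Z ∈ NN D (S ∪ {γ}) := coe_mem_NN.2 z0.2
  have hσZN : D.s τ Z ∈ NN D (S ∪ {γ}) := dsc_stable D H hZN
  have hw : (t : Ω) * D.s τ (t : Ω) ∈ NN D S := by
    refine dsc_down D H (mul_mem t.2 (dsc_stable D H t.2)) ?_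
    rw [map_mul, hper _ t.2]; ring
  have hZalg : Z = ((z0 : Acl k Ω) : Ω) := rfl
  have hσZ : D.s τ Z = ((τ z0 : Acl k Ω) : Ω) := D.ext _ _
  have hτz0 : τ z0 ∈ FF (S ∪ {γ}) := by
    rw [← coe_mem_NN (D := D), ← hσZ]; exact hσZN
  have hττ : τ (τ (z0 : Acl k Ω)) = z0 := by
    apply Subtype.ext
    rw [← D.ext, ← D.ext]; exact hper _ hZN
  set a : Acl k Ω := ((z0 : Acl k Ω) + τ z0) / 2 with ha
  set b : Acl k Ω := ((z0 : Acl k Ω) - τ z0) / (2 * γ) with hb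
  have hτ2 : τ (2 : Acl k Ω) = 2 := by
    have : (2 : Acl k Ω) = ((2 : ℕ) : Acl k Ω) := by norm_num
    rw [this, map_natCast]
  have hFdown : ∀ y ∈ FF (S ∪ {γ}), τ y = y → y ∈ FF S := by
    intro y hy h1
    rw [← coe_mem_NN (D := D)]
    refine dsc_down D H (coe_mem_NN.2 hy) ?_
    rw [D.ext, h1]
  have h2FF : ∀ S' : Set (Acl k Ω), (2 : Acl k Ω) ∈ FF S' := by
    intro S'
    have : (2 : Acl k Ω) = ((2 : ℕ) : Acl k Ω) := by norm_num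
    rw [this]; exact natCast_mem _ 2
  have haF : a ∈ FF S := by
    refine hFdown a (div_mem (add_mem z0.2 hτz0) (h2FF _)) ?_
    rw [ha, map_div₀, map_add, hττ, hτ2, add_comm]
  have hbF : b ∈ FF S := by
    refine hFdown b (div_mem (sub_mem z0.2 hτz0) (mul_mem (h2FF _) (subset_FF _ (Or.inr rfl)))) ?_
    rw [hb, map_div₀, map_sub, hττ, map_mul, hτ2, hτγ, ← neg_sub, mul_neg, neg_div_neg_eq]
  have habn : a ^ 2 - c * b ^ 2 = z0 * τ z0 := by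
    rw [ha, hb, ← hγ]
    field_simp
    ring
  have habΩ : ((a : Acl k Ω) : Ω) ^ 2 - ((c : Acl k Ω) : Ω) * (b : Ω) ^ 2 = Z * D.s τ Z := by
    rw [hσZ]
    exact congrArg (fun x : Acl k Ω => (x : Ω)) habn
  have hZ0 : Z ≠ 0 := fun h1 => hz00 (Subtype.ext (Subtype.ext h1))
  have hσZ0 : D.s τ Z ≠ 0 := by
    intro h1
    exact hZ0 ((map_eq_zero (D.s τ)).1 h1)
  have hfin : ((d : Acl k Ω) : Ω) * (h : Ω) ^ 2 = (Z * D.s τ Z) * ((t : Ω) * D.s τ (t : Ω)) ^ 2 := by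
    rw [← hprod, hztΩ, map_mul, map_pow]; ring
  -- the root
  set y : NN D S := (⟨_, hw⟩ : NN D S) / h with hy
  have hyv : (y : Ω) = (t : Ω) * D.s τ (t : Ω) / (h : Ω) := rfl
  set q : FF S := d / (⟨a, haF⟩ ^ 2 - c * ⟨b, hbF⟩ ^ 2) with hq
  have hqv : ((q : Acl k Ω) : Ω) = ((d : Acl k Ω) : Ω) / (Z * D.s τ Z) := by
    rw [← habΩ]; rfl
  have hyq : y ^ 2 = inc D S q := by
    apply Subtype.ext
    rw [coe_inc, hqv]
    show (y : Ω) ^ 2 = _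
    rw [hyv, div_pow, div_eq_div_iff (pow_ne_zero 2 hhΩ) (mul_ne_zero hZ0 hσZ0)]
    linear_combination - hfin
  obtain ⟨e, he⟩ := hROOT k Ω D S 2 (by norm_num) y q hyq
  refine ⟨⟨a, haF⟩ * e, ⟨b, hbF⟩ * e, ?_⟩
  apply Subtype.ext
  apply Subtype.ext
  have heΩ : ((e : Acl k Ω) : Ω) = (t : Ω) * D.s τ (t : Ω) / (h : Ω) := by
    rw [← hyv, he]; rfl
  show ((d : Acl k Ω) : Ω) = ((a : Ω) * ((e : Acl k Ω) : Ω)) ^ 2 -
    ((c : Acl k Ω) : Ω) * ((b : Ω) * ((e : Acl k Ω) : Ω)) ^ 2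
  have h5 : ((d : Acl k Ω) : Ω) = (Z * D.s τ Z) * ((e : Acl k Ω) : Ω) ^ 2 := by
    rw [heΩ, div_pow]
    field_simp
    linear_combination hfin
  rw [h5, ← habΩ]; ring

end Pool.Agent.Helper14.BSC
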