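import Pool.Agent.Helper8.BSC.Dsc

set_option autoImplicit false

namespace Pool.Agent.Helper14.BSC

/-- DSC3: descent of cubic norm equations. -/
theorem st_DSC3 (hKUM : ST_KUM) (hROOT : ST_ROOT) : ST_DSC3 := by
  intro k Ω _ _ _ _ _ D S c d w g h hw hc hd hh heq
  have : CharZero Ω := charZero_of_injective_algebraMap (algebraMap k Ω).injective
  obtain ⟨γ, ω, τ, hγ, hγ0, hωF, hω, hτγ, H⟩ := dsc_ex3 c w hw hc
  have hω3 : ω ^ 3 = 1 := by linear_combination (ω - 1) * hω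
  have hω0 : ω ≠ 0 := by
    rintro rfl
    norm_num at hω3
  have hτω : τ ω = ω := hωF τ H.mem
  have hγΩ : (γ : Ω) ^ 3 = ((c : Acl k Ω) : Ω) := by
    rw [← hγ]; rfl
  have hωΩ : 1 + (ω : Ω) + (ω : Ω) ^ 2 = 0 := congrArg (fun x : Acl k Ω => (x : Ω)) hω
  have hγΩ0 : (γ : Ω) ≠ 0 := fun h => hγ0 (Subtype.ext h)
  have hσγ : D.s τ (γ : Ω) = (ω : Ω) * (γ : Ω) := by rw [D.ext, hτγ]; rfl
  have hσω : D.s τ (ω : Ω) = (ω : Ω) := by rw [D.ext, hτω]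
  have heq' : ((c : Acl k Ω) : Ω) * (g : Ω) ^ 3 + ((d : Acl k Ω) : Ω) * (h : Ω) ^ 3 = 1 :=
    congrArg (fun x : NN D S => (x : Ω)) heq
  have hσg : D.s τ (g : Ω) = g := g.2 τ H.mem
  have hdΩ : ((d : Acl k Ω) : Ω) ≠ 0 := fun h => hd (Subtype.ext (Subtype.ext h))
  have hhΩ : (h : Ω) ≠ 0 := fun h1 => hh (Subtype.ext h1)
  have hgS : (g : Ω) ∈ NN D (S ∪ {γ}) := NN_le D (dsc_le_union S γ) g.2
  have hγN : (γ : Ω) ∈ NN D (S ∪ {γ}) := coe_mem_NN.2 (subset_FF _ (Or.inr rfl))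
  set z : NN D (S ∪ {γ}) := ⟨1 - (γ : Ω) * (g : Ω), sub_mem (one_mem _) (mul_mem hγN hgS)⟩ with hz
  have hzv : (z : Ω) = 1 - (γ : Ω) * (g : Ω) := rfl
  have hσz : D.s τ (z : Ω) = 1 - (ω : Ω) * (γ : Ω) * (g : Ω) := by
    rw [hzv, map_sub, map_one, map_mul, hσγ, hσg]
  have hσσz : D.s τ (D.s τ (z : Ω)) = 1 - (ω : Ω) ^ 2 * (γ : Ω) * (g : Ω) := by
    rw [hσz, map_sub, map_one, map_mul, map_mul, hσγ, hσg, hσω]; ring
  have hprod : (z : Ω) * D.s τ (z : Ω) * D.s τ (D.s τ (z : Ω)) =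
      ((d : Acl k Ω) : Ω) * (h : Ω) ^ 3 := by
    rw [hσσz, hσz, hzv]
    have h1 : (1 - (γ : Ω) * (g : Ω)) * (1 - (ω : Ω) * (γ : Ω) * (g : Ω)) *
        (1 - (ω : Ω) ^ 2 * (γ : Ω) * (g : Ω)) = 1 - (γ : Ω) ^ 3 * (g : Ω) ^ 3 := by
      linear_combination (-(γ : Ω) * g + (ω : Ω) * (γ : Ω) ^ 2 * (g : Ω) ^ 2 +
        (γ : Ω) ^ 3 * (g : Ω) ^ 3 * (1 - ω)) * hωΩ
    rw [h1, hγΩ]
    linear_combination - heq'
  have hz0 : z ≠ 0 := by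
    intro h1
    have h2 : (z : Ω) = 0 := by rw [h1]; rfl
    rw [h2, zero_mul, zero_mul] at hprod
    exact mul_ne_zero hdΩ (pow_ne_zero 3 hhΩ) hprod.symm
  obtain ⟨z0, hz00, t, ht0, hzt⟩ := hKUM k Ω D (S ∪ {γ}) 3 (by norm_num) z hz0
  have hztΩ : (z : Ω) = ((z0 : Acl k Ω) : Ω) * (t : Ω) ^ 3 :=
    congrArg (fun x : NN D (S ∪ {γ}) => (x : Ω)) hzt
  -- norms
  have hper : ∀ y ∈ NN D (S ∪ {γ}), D.s τ (D.s τ (D.s τ y)) = y := by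
    intro y hy
    have := dsc_period D H hy
    rw [pow_succ, pow_two, map_mul, map_mul, AlgEquiv.mul_apply, AlgEquiv.mul_apply] at this
    exact this
  set Z : Ω := ((z0 : Acl k Ω) : Ω) with hZ
  have hZN : Z ∈ NN D (S ∪ {γ}) := coe_mem_NN.2 z0.2
  have hσZN : D.s τ Z ∈ NN D (S ∪ {γ}) := dsc_stable D H hZN
  have hσσZN : D.s τ (D.s τ Z) ∈ NN D (S ∪ {γ}) := dsc_stable D H hσZN
  have hσt := dsc_stable D H t.2
  have hσσt := dsc_stable D H hσt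
  have hw : (t : Ω) * D.s τ (t : Ω) * D.s τ (D.s τ (t : Ω)) ∈ NN D S := by
    refine dsc_down D H (mul_mem (mul_mem t.2 hσt) hσσt) ?_
    rw [map_mul, map_mul, hper _ t.2]; ring
  have hσZ : D.s τ Z = ((τ z0 : Acl k Ω) : Ω) := D.ext _ _
  have hσσZ : D.s τ (D.s τ Z) = ((τ (τ z0) : Acl k Ω) : Ω) := by rw [hσZ, D.ext]
  have hz1 : τ z0 ∈ FF (S ∪ {γ}) := by
    rw [← coe_mem_NN (D := D), ← hσZ]; exact hσZN
  have hz2 : τ (τ z0) ∈ FF (S ∪ {γ}) := by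
    rw [← coe_mem_NN (D := D), ← hσσZ]; exact hσσZN
  have hτττ : τ (τ (τ (z0 : Acl k Ω))) = z0 := by
    apply Subtype.ext
    rw [← D.ext, ← D.ext, ← D.ext]; exact hper _ hZN
  set x0 : Acl k Ω := (z0 : Acl k Ω) with hx0
  set x1 : Acl k Ω := τ z0 with hx1
  set x2 : Acl k Ω := τ (τ z0) with hx2
  have hωF' : ω ∈ FF (S ∪ {γ}) := FF_le (dsc_le_union S γ) hωF
  have hγF' : γ ∈ FF (S ∪ {γ}) := subset_FF _ (Or.inr rfl)
  set a : Acl k Ω := (x0 + x1 + x2) / 3 with ha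
  set b : Acl k Ω := (x0 + ω ^ 2 * x1 + ω * x2) / (3 * γ) with hb
  set b' : Acl k Ω := (x0 + ω * x1 + ω ^ 2 * x2) / (3 * γ ^ 2) with hb'
  have h3N : (3 : Acl k Ω) = ((3 : ℕ) : Acl k Ω) := by norm_num
  have hτ3 : τ (3 : Acl k Ω) = 3 := by
    rw [h3N, map_natCast]
  have hFdown : ∀ y ∈ FF (S ∪ {γ}), τ y = y → y ∈ FF S := by
    intro y hy h1
    rw [← coe_mem_NN (D := D)]
    refine dsc_down D H (coe_mem_NN.2 hy) ?_
    rw [D.ext, h1]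
  have h3FF : (3 : Acl k Ω) ∈ FF (S ∪ {γ}) := by
    rw [h3N]; exact natCast_mem _ 3
  have haF : a ∈ FF S := by
    refine hFdown a (div_mem (add_mem (add_mem z0.2 hz1) hz2) h3FF) ?_
    rw [ha, map_div₀, map_add, map_add, hτττ, hτ3]
    ring
  have h30 : (3 : Acl k Ω) ≠ 0 := by norm_num
  have hbF : b ∈ FF S := by
    refine hFdown b (div_mem (add_mem (add_mem z0.2 (mul_mem (pow_mem hωF' 2) hz1))
      (mul_mem hωF' hz2)) (mul_mem h3FF hγF')) ?_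
    rw [hb, map_div₀, map_add, map_add, map_mul, map_mul, map_pow, hτω, map_mul, hτ3, hτγ, hτττ]
    rw [div_eq_div_iff (mul_ne_zero h30 (mul_ne_zero hω0 hγ0)) (mul_ne_zero h30 hγ0)]
    linear_combination (-3 * γ * x1) * hω3
  have hbF' : b' ∈ FF S := by
    refine hFdown b' (div_mem (add_mem (add_mem z0.2 (mul_mem hωF' hz1))
      (mul_mem (pow_mem hωF' 2) hz2)) (mul_mem h3FF (pow_mem hγF' 2))) ?_
    rw [hb', map_div₀, map_add, map_add, map_mul, map_mul, map_pow, hτω, map_mul, hτ3, map_pow,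
      hτγ, hτττ]
    rw [div_eq_div_iff (mul_ne_zero h30 (pow_ne_zero 2 (mul_ne_zero hω0 hγ0)))
      (mul_ne_zero h30 (pow_ne_zero 2 hγ0))]
    linear_combination (-3 * γ ^ 2 * x1 - 3 * γ ^ 2 * ω * x2) * hω3
  have hbγ : b * γ = (x0 + ω ^ 2 * x1 + ω * x2) / 3 := by
    rw [hb]; field_simp
  have hbγ' : b' * γ ^ 2 = (x0 + ω * x1 + ω ^ 2 * x2) / 3 := by
    rw [hb']; field_simp
  have e0 : x0 = a + b * γ + b' * γ ^ 2 := by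
    rw [hbγ, hbγ', ha]
    linear_combination (-(x1 + x2) / 3) * hω
  have e1 : x1 = a + ω * (b * γ) + ω ^ 2 * (b' * γ ^ 2) := by
    rw [hbγ, hbγ', ha]
    linear_combination (-(x0 + x2) / 3) * hω - (2 * x1 / 3 + ω * x2 / 3) * hω3
  have e2 : x2 = a + ω ^ 2 * (b * γ) + ω * (b' * γ ^ 2) := by
    rw [hbγ, hbγ', ha]
    linear_combination (-(x0 + x1) / 3) * hω - (2 * x2 / 3 + ω * x1 / 3) * hω3
  have habn : a ^ 3 + c * b ^ 3 + (c : Acl k Ω) ^ 2 * b' ^ 3 - 3 * ((c : Acl k Ω) * (a * (b * b'))) =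
      x0 * x1 * x2 := by
    rw [← hγ]
    set B := b * γ with hB
    set B' := b' * γ ^ 2 with hB'
    have h1 : x0 * x1 * x2 = a ^ 3 + B ^ 3 + B' ^ 3 - 3 * (a * (B * B')) := by
      rw [e0, e1, e2]
      linear_combination (a ^ 2 * B + a ^ 2 * B' + a * B ^ 2 * ω + a * B' ^ 2 * ω +
        B ^ 2 * B' * ω ^ 2 + B * B' ^ 2 * ω ^ 2 + (ω ^ 2 - ω) * a * B * B' + 3 * a * B * B' +
        (ω - 1) * (B ^ 3 + B' ^ 3)) * hω
    rw [h1, hB, hB']; ring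
  have hc2 : ((c : Acl k Ω) : Ω) ^ 2 = (((c : Acl k Ω) ^ 2 : Acl k Ω) : Ω) := rfl
  have habΩ : (a : Ω) ^ 3 + ((c : Acl k Ω) : Ω) * (b : Ω) ^ 3 +
      ((c : Acl k Ω) : Ω) ^ 2 * (b' : Ω) ^ 3 -
      3 * (((c : Acl k Ω) : Ω) * ((a : Ω) * ((b : Ω) * (b' : Ω)))) = Z * D.s τ Z * D.s τ (D.s τ Z) := by
    rw [hσσZ, hσZ]
    exact congrArg (fun x : Acl k Ω => (x : Ω)) habn
  have hZ0 : Z ≠ 0 := fun h1 => hz00 (Subtype.ext (Subtype.ext h1))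
  have hσZ0 : D.s τ Z ≠ 0 := fun h1 => hZ0 ((map_eq_zero (D.s τ)).1 h1)
  have hσσZ0 : D.s τ (D.s τ Z) ≠ 0 := fun h1 => hσZ0 ((map_eq_zero (D.s τ)).1 h1)
  have hNZ0 : Z * D.s τ Z * D.s τ (D.s τ Z) ≠ 0 := mul_ne_zero (mul_ne_zero hZ0 hσZ0) hσσZ0
  have hfin : ((d : Acl k Ω) : Ω) * (h : Ω) ^ 3 = (Z * D.s τ Z * D.s τ (D.s τ Z)) *
      ((t : Ω) * D.s τ (t : Ω) * D.s τ (D.s τ (t : Ω))) ^ 3 := by
    rw [← hprod, hztΩ]
    simp only [map_mul, map_pow]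
    ring
  -- the root
  set y : NN D S := (⟨_, hw⟩ : NN D S) / h with hy
  have hyv : (y : Ω) = (t : Ω) * D.s τ (t : Ω) * D.s τ (D.s τ (t : Ω)) / (h : Ω) := rfl
  set A : FF S := ⟨a, haF⟩ with hA
  set B : FF S := ⟨b, hbF⟩ with hB
  set B' : FF S := ⟨b', hbF'⟩ with hB'
  set q : FF S := d / (A ^ 3 + c * B ^ 3 + c ^ 2 * B' ^ 3 - 3 * (c * (A * (B * B')))) with hq
  have hqv : ((q : Acl k Ω) : Ω) = ((d : Acl k Ω) : Ω) / (Z * D.s τ Z * D.s τ (D.s τ Z)) := by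
    rw [← habΩ]; rfl
  have hyq : y ^ 3 = inc D S q := by
    apply Subtype.ext
    rw [coe_inc, hqv]
    show (y : Ω) ^ 3 = _
    rw [hyv, div_pow, div_eq_div_iff (pow_ne_zero 3 hhΩ) hNZ0]
    linear_combination - hfin
  obtain ⟨e, he⟩ := hROOT k Ω D S 3 (by norm_num) y q hyq
  refine ⟨A * e, B * e, B' * e, ?_⟩
  have heΩ : ((e : Acl k Ω) : Ω) =
      (t : Ω) * D.s τ (t : Ω) * D.s τ (D.s τ (t : Ω)) / (h : Ω) := by
    rw [← hyv, he]; rfl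
  have h5 : ((d : Acl k Ω) : Ω) =
      (Z * D.s τ Z * D.s τ (D.s τ Z)) * ((e : Acl k Ω) : Ω) ^ 3 := by
    rw [heΩ, div_pow]
    field_simp
    linear_combination hfin
  have h6 : d = (A ^ 3 + c * B ^ 3 + c ^ 2 * B' ^ 3 - 3 * (c * (A * (B * B')))) * e ^ 3 := by
    apply Subtype.ext
    apply Subtype.ext
    rw [h5, ← habΩ]; rfl
  rw [h6]
  ring

end Pool.Agent.Helper14.BSC
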