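import Pool.Agent.Helper14.BSC.Stmts

/-!
# Cyclic descent from `NN D (S ∪ {γ})` to `NN D S` (library for DSC2, DSC3)
-/

set_option autoImplicit false

namespace Pool.Agent.Helper14.BSC

section dsc

variable {k Ω : Type} [Field k] [Field Ω] [Algebra k Ω]

theorem dsc_mem_union {S : Set (Acl k Ω)} {γ : Acl k Ω} {g : GG k Ω} :
    g ∈ Stab (S ∪ {γ}) ↔ g ∈ Stab S ∧ g γ = γ := by
  constructor
  · intro h
    exact ⟨fun a ha => h a (Or.inl ha), h γ (Or.inr rfl)⟩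
  · rintro ⟨h1, h2⟩ a (ha | ha)
    · exact h1 a ha
    · rw [Set.mem_singleton_iff] at ha
      rw [ha]; exact h2

theorem dsc_le_union (S : Set (Acl k Ω)) (γ : Acl k Ω) : Stab (S ∪ {γ}) ≤ Stab S :=
  fun _ h => (dsc_mem_union.1 h).1

/-- cyclic data -/
structure dsc_Cyc (S : Set (Acl k Ω)) (γ : Acl k Ω) (τ : GG k Ω) (n : ℕ) : Prop where
  mem : τ ∈ Stab S
  tr : ∀ g ∈ Stab S, ∃ m : ℕ, g γ = (τ ^ m) γ
  st : τ γ ∈ FF (S ∪ {γ})
  pw : (τ ^ n) γ = γ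

variable {S : Set (Acl k Ω)} {γ : Acl k Ω} {τ : GG k Ω} {n : ℕ}

theorem dsc_s_pow (D : Sec k Ω) (τ : GG k Ω) (m : ℕ) {y : Ω} (h : D.s τ y = y) :
    D.s (τ ^ m) y = y := by
  induction m with
  | zero => rw [pow_zero, map_one]; rfl
  | succ m ih => rw [pow_succ, map_mul, AlgEquiv.mul_apply, h, ih]

theorem dsc_down (D : Sec k Ω) (H : dsc_Cyc S γ τ n) {y : Ω} (hy : y ∈ NN D (S ∪ {γ}))
    (h : D.s τ y = y) : y ∈ NN D S := by
  intro g hg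
  obtain ⟨m, hm⟩ := H.tr g hg
  have h1 : (τ ^ m)⁻¹ * g ∈ Stab (S ∪ {γ}) := by
    refine dsc_mem_union.2 ⟨mul_mem (inv_mem (pow_mem H.mem m)) hg, ?_⟩
    rw [AlgEquiv.mul_apply, hm, ← AlgEquiv.mul_apply, inv_mul_cancel]; rfl
  have h2 := hy _ h1
  have h3 : g = τ ^ m * ((τ ^ m)⁻¹ * g) := by rw [mul_inv_cancel_left]
  rw [h3, map_mul, AlgEquiv.mul_apply, h2, dsc_s_pow D τ m h]

theorem dsc_stable (D : Sec k Ω) (H : dsc_Cyc S γ τ n) {y : Ω} (hy : y ∈ NN D (S ∪ {γ})) :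
    D.s τ y ∈ NN D (S ∪ {γ}) := by
  intro h hh
  have h1 : τ⁻¹ * (h * τ) ∈ Stab (S ∪ {γ}) := by
    refine dsc_mem_union.2 ⟨mul_mem (inv_mem H.mem)
      (mul_mem (dsc_mem_union.1 hh).1 H.mem), ?_⟩
    rw [AlgEquiv.mul_apply, AlgEquiv.mul_apply, H.st h hh, ← AlgEquiv.mul_apply, inv_mul_cancel]
    rfl
  have h2 := hy _ h1
  have h3 : h * τ = τ * (τ⁻¹ * (h * τ)) := by rw [mul_inv_cancel_left]
  rw [← AlgEquiv.mul_apply, ← map_mul, h3, map_mul, AlgEquiv.mul_apply, h2]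

theorem dsc_period (D : Sec k Ω) (H : dsc_Cyc S γ τ n) {y : Ω} (hy : y ∈ NN D (S ∪ {γ})) :
    D.s (τ ^ n) y = y :=
  hy _ (dsc_mem_union.2 ⟨pow_mem H.mem n, H.pw⟩)

/-- existence of the cyclic data for square roots -/
theorem dsc_ex2 [CharZero k] [IsAlgClosed Ω] (c : FF S) (hc : ¬ IsSquare c) :
    ∃ (γ : Acl k Ω) (τ : GG k Ω), γ ^ 2 = c ∧ γ ≠ 0 ∧ τ γ = - γ ∧ dsc_Cyc S γ τ 2 := by
  have : IsAlgClosed (Acl k Ω) := IsAlgClosure.isAlgClosed k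
  obtain ⟨γ, hγ⟩ := IsAlgClosed.exists_pow_nat_eq (c : Acl k Ω) (n := 2) (by norm_num)
  have h0 : γ ≠ 0 := by
    rintro rfl
    apply hc
    refine ⟨0, ?_⟩
    apply Subtype.ext
    rw [← hγ]; simp
  have hn : γ ∉ FF S := by
    intro h
    apply hc
    refine ⟨⟨γ, h⟩, ?_⟩
    apply Subtype.ext
    rw [← hγ]; show _ = γ * γ; ring
  rw [mem_FF] at hn
  push Not at hn
  obtain ⟨τ, hτ, hτγ⟩ := hn
  have key : ∀ g ∈ Stab S, g γ = γ ∨ g γ = - γ := by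
    intro g hg
    have h1 : (g γ) ^ 2 = γ ^ 2 := by rw [← map_pow, hγ]; exact c.2 g hg
    exact sq_eq_sq_iff_eq_or_eq_neg.1 h1
  have hτ1 : τ γ = - γ := (key τ hτ).resolve_left hτγ
  refine ⟨γ, τ, hγ, h0, hτ1, hτ, ?_, ?_, ?_⟩
  · intro g hg
    rcases key g hg with h | h
    · exact ⟨0, by rw [h]; rfl⟩
    · exact ⟨1, by rw [h, pow_one, hτ1]⟩
  · intro g hg
    rw [hτ1, map_neg, (dsc_mem_union.1 hg).2]
  · rw [pow_two, AlgEquiv.mul_apply, hτ1, map_neg, hτ1, neg_neg]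

/-- existence of the cyclic data for cube roots -/
theorem dsc_ex3 [CharZero k] [IsAlgClosed Ω] (c w : FF S) (hw : IsPrimitiveRoot w 3) (hc : ¬ C3 c) :
    ∃ (γ ω : Acl k Ω) (τ : GG k Ω), γ ^ 3 = c ∧ γ ≠ 0 ∧ ω ∈ FF S ∧ 1 + ω + ω ^ 2 = 0 ∧
      τ γ = ω * γ ∧ dsc_Cyc S γ τ 3 := by
  have : IsAlgClosed (Acl k Ω) := IsAlgClosure.isAlgClosed k
  obtain ⟨γ, hγ⟩ := IsAlgClosed.exists_pow_nat_eq (c : Acl k Ω) (n := 3) (by norm_num)
  have h0 : γ ≠ 0 := by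
    rintro rfl
    apply hc
    refine ⟨0, ?_⟩
    apply Subtype.ext
    rw [← hγ]; simp
  have hn : γ ∉ FF S := by
    intro h
    apply hc
    refine ⟨⟨γ, h⟩, ?_⟩
    apply Subtype.ext
    rw [← hγ]; rfl
  rw [mem_FF] at hn
  push Not at hn
  obtain ⟨τ, hτ, hτγ⟩ := hn
  have hw1 : (w : Acl k Ω) ^ 3 = 1 := by
    have := hw.pow_eq_one
    have h2 := congrArg (fun x : FF S => (x : Acl k Ω)) this
    simpa using h2
  have hw2 : (w : Acl k Ω) ≠ 1 := by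
    intro h
    have h1 : w = 1 := Subtype.ext h
    exact hw.ne_one (by norm_num) h1
  have hw3 : 1 + (w : Acl k Ω) + (w : Acl k Ω) ^ 2 = 0 := by
    have h1 : ((w : Acl k Ω) - 1) * (1 + (w : Acl k Ω) + (w : Acl k Ω) ^ 2) = 0 := by
      linear_combination hw1
    rcases mul_eq_zero.1 h1 with h | h
    · exact absurd (sub_eq_zero.1 h) hw2
    · exact h
  have key : ∀ g ∈ Stab S, g γ = γ ∨ g γ = w * γ ∨ g γ = w ^ 2 * γ := by
    intro g hg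
    have h1 : (g γ) ^ 3 = γ ^ 3 := by rw [← map_pow, hγ]; exact c.2 g hg
    have h2 : (g γ - γ) * ((g γ - w * γ) * (g γ - w ^ 2 * γ)) = 0 := by
      linear_combination h1 + (-(γ * (g γ) ^ 2) + γ ^ 2 * g γ) * hw3 + (g γ * γ ^ 2 - γ ^ 3) * hw1
    rcases mul_eq_zero.1 h2 with h | h
    · exact Or.inl (sub_eq_zero.1 h)
    · rcases mul_eq_zero.1 h with h | h
      · exact Or.inr (Or.inl (sub_eq_zero.1 h))
      · exact Or.inr (Or.inr (sub_eq_zero.1 h))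
  have main : ∀ ω : Acl k Ω, ω ∈ FF S → 1 + ω + ω ^ 2 = 0 → τ γ = ω * γ →
      (∀ g ∈ Stab S, g γ = γ ∨ g γ = ω * γ ∨ g γ = ω ^ 2 * γ) → dsc_Cyc S γ τ 3 := by
    intro ω hω h1 h2 h3
    have hτω : τ ω = ω := hω τ hτ
    have h4 : (τ ^ 2) γ = ω ^ 2 * γ := by
      rw [pow_two, AlgEquiv.mul_apply, h2, map_mul, hτω, h2]; ring
    refine ⟨hτ, ?_, ?_, ?_⟩
    · intro g hg
      rcases h3 g hg with h | h | h
      · exact ⟨0, by rw [h]; rfl⟩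
      · exact ⟨1, by rw [h, pow_one, h2]⟩
      · exact ⟨2, by rw [h, h4]⟩
    · intro g hg
      rw [h2, map_mul, (dsc_mem_union.1 hg).2, hω g (dsc_mem_union.1 hg).1]
    · rw [pow_succ, AlgEquiv.mul_apply, h2, map_mul, h4, pow_two, AlgEquiv.mul_apply, hτω, hτω]
      linear_combination (ω - 1) * γ * h1
  rcases key τ hτ with h | h | h
  · exact absurd h hτγ
  · exact ⟨γ, w, τ, hγ, h0, w.2, hw3, h, main w w.2 hw3 h key⟩
  · have h5 : 1 + (w : Acl k Ω) ^ 2 + ((w : Acl k Ω) ^ 2) ^ 2 = 0 := by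
      linear_combination hw3 + (w : Acl k Ω) * hw1
    refine ⟨γ, (w : Acl k Ω) ^ 2, τ, hγ, h0, pow_mem w.2 2, h5, h,
      main _ (pow_mem w.2 2) h5 h ?_⟩
    intro g hg
    rcases key g hg with h6 | h6 | h6
    · exact Or.inl h6
    · refine Or.inr (Or.inr ?_)
      rw [h6]
      linear_combination (-(w : Acl k Ω) * γ) * hw1
    · exact Or.inr (Or.inl h6)

end dsc

end Pool.Agent.Helper14.BSC
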